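import Pool.Graph.R_pool_sql_team_seeded_47a924f7.T6.H15.BB.MidDefs

/-!
# Spreading out cycles and correspondences: definitions

`𝒱₀` is a class of smooth proper varieties over a field `k₀`, with Chow groups `C₀` and a Weil
cohomology theory `W₀`, and `𝒱` is a class of smooth proper varieties over an extension `K` of `k₀`,
with Chow groups `C` and a Weil cohomology theory `W`.
-/

open CategoryTheory CategoryTheory.Limits AlgebraicGeometry
open Pool.Agent.H914 Pool.Agent.H914.VarClass Pool.Agent.H914.VarClass.Obj Pool.Agent.R903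
open Pool.Agent.T6.H15.BB

universe u v w u' v' w' t

namespace Pool.Agent.H837.Spread

section Alg

/-- `S` is a generalized inverse of `T`: `T S T = T`. -/
def IsGenInverse {K : Type w} [Field K] {V : Type w} [Ring V] [Algebra K V] {V' : Type w}
    [Ring V'] [Algebra K V'] (T : V →ₗ[K] V') (S : V' →ₗ[K] V) : Prop :=
  ∀ a, T (S (T a)) = T a

/-- `x` is a value of `T`. -/
def IsValue {K : Type w} [Field K] {V : Type w} [Ring V] [Algebra K V] {V' : Type w}
    [Ring V'] [Algebra K V'] (T : V →ₗ[K] V') (x : V') : Prop :=
  ∃ z, T z = x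

/-- `x` is a value of `T`. -/
def IsValueCH {A : Type v} [CommRing A] [Algebra ℚ A] {A' : Type v} [CommRing A'] [Algebra ℚ A']
    (T : A →ₗ[ℚ] A') (x : A') : Prop :=
  ∃ z, T z = x

/-- The subspace generated by the vectors with the property `P`. -/
def spanOfCH {A : Type v} [CommRing A] [Algebra ℚ A] (P : A → Prop) : Submodule ℚ A :=
  Submodule.span ℚ {x | P x}

/-- The subspace generated by the vectors with the property `P`. -/
def spanOf {K : Type w} [Field K] {V : Type w} [Ring V] [Algebra K V] (P : V → Prop) :
    Submodule K V :=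
  Submodule.span K {x | P x}

/-- Let `A₀` be the Chow group of the total space `Y`, `A` that of `X`, and `M` that of the generic
fibre `Y_η`; `res` is the restriction from `Y` to `Y_η` and `emb` is the pull-back from `X` to `Y_η`.
The class `y` on the total space extends `x`, and the operator `T₀` extends `T`. -/
structure Extends {A₀ : Type v} [CommRing A₀] [Algebra ℚ A₀] {A : Type v'} [CommRing A]
    [Algebra ℚ A] {M : Type t} [AddCommGroup M] [Module ℚ M] (res : A₀ →ₗ[ℚ] M) (emb : A →ₗ[ℚ] M)
    (T₀ : A₀ →ₗ[ℚ] A₀) (T : A →ₗ[ℚ] A) (y : A₀) (x : A) : Prop where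
  /-- `Y_η` dominates `X`, so that the pull-back is injective -/
  injective : Function.Injective emb
  res_eq : res y = emb x
  /-- there is an operator on the Chow group of `Y_η` which is compatible with both of them -/
  op : ∃ T' : M →ₗ[ℚ] M, (∀ z, res (T₀ z) = T' (res z)) ∧ ∀ z, emb (T z) = T' (emb z)

/-- As `Extends`; the classes in the subspace `N₀` (those which are supported over a proper closed
subset of the base) restrict to zero. -/
def ExtendsMod {A₀ : Type v} [CommRing A₀] [Algebra ℚ A₀] {A : Type v'} [CommRing A]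
    [Algebra ℚ A] (N₀ : Submodule ℚ A₀) (T₀ : A₀ →ₗ[ℚ] A₀) (T : A →ₗ[ℚ] A) (y : A₀) (x : A) : Prop :=
  ∃ (M : Type v') (_ : AddCommGroup M) (_ : Module ℚ M) (res : A₀ →ₗ[ℚ] M) (emb : A →ₗ[ℚ] M),
    Extends res emb T₀ T y x ∧ ∀ z ∈ N₀, res z = 0

/-- `L m a` is the step `a` of the Leray filtration of the cohomology `gr m` of degree `m` of the
total space (more precisely, its preimage under the restriction to small open subsets); its last
step `L m (b + 1)` lies in `N`, and `T` acts on its graded piece `L m a / L m (a + 1)` as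
multiplication by `m - a` (and by `s`, on the part which does not come from `X`). -/
structure IsLeray {K : Type w} [Field K] {V : Type w} [AddCommGroup V] [Module K V]
    (gr : ℕ → Submodule K V) (N : Submodule K V) (T : V →ₗ[K] V) (s : K) (b : ℕ)
    (L : ℕ → ℕ → Submodule K V) : Prop where
  zero : ∀ m, gr m ≤ L m 0
  top : ∀ m, L m (b + 1) ≤ N
  step : ∀ m a, a ≤ b → ∀ v ∈ L m a,
    T (T v - ((m : K) - a) • v) - s • (T v - ((m : K) - a) • v) ∈ L m (a + 1)

/-- There is a Leray filtration, with the class `c y` in the step one if `P` is true. -/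
def HasLeray {A : Type v} [CommRing A] {K : Type w} [Field K] {H : Type w} [Ring H]
    [Algebra K H] (c : A →+* H) (gr : ℕ → Submodule K H) (N : Submodule K H) (T : H →ₗ[K] H) (s : ℚ)
    (b i : ℕ) (P : Prop) (y : A) : Prop :=
  ∃ L : ℕ → ℕ → Submodule K H, IsLeray gr N T (s : K) b L ∧ (P → c y ∈ L (2 * i) 1)

end Alg

section Base

variable {k : Type u} [Field k] {𝒱 : VarClass k}

/-- A class of morphisms to `Y`. -/
abbrev MorClass (Y : 𝒱.Obj) : Type (u + 1) := ∀ D : 𝒱.Obj, (D ⟶ Y) → Prop

/-- The subspace of `CH(Y)` generated by the push-forwards for the morphisms in the class `Φ`. -/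
def pushCH (C : ChowTheory.{u, v} 𝒱) {Y : 𝒱.Obj} (Φ : MorClass Y) : Submodule ℚ (C.CH Y) :=
  spanOfCH fun x => ∃ (D : 𝒱.Obj) (f : D ⟶ Y), Φ D f ∧ IsValueCH (C.push f) x

variable {C : ChowTheory.{u, v} 𝒱}

/-- The subspace of `H(Y)` generated by the push-forwards for the morphisms in the class `Φ`. -/
def pushH (W : WeilTheory.{u, v, w} C) {Y : 𝒱.Obj} (Φ : MorClass Y) : Submodule W.K (W.H Y) :=
  spanOf fun x => ∃ (D : 𝒱.Obj) (f : D ⟶ Y), Φ D f ∧ IsValue (W.push f) x

/-- Every correspondence `γ` from `X` to `Y`, of any degree, has a generalized inverse modulo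
homological equivalence: a correspondence `σ` from `Y` to `X`, of the opposite degree, such that
`γ σ γ` and `γ` act in the same way on `H(X)`. This says that the category of homological motives is
semisimple. By the theorem of Jannsen this is so if homological and numerical equivalence
coincide. -/
def RegularMotives (W : WeilTheory.{u, v, w} C) : Prop :=
  ∀ (X Y : 𝒱.Obj) (p q : ℕ), p + q = X.dim + Y.dim → ∀ γ : C.CH (X.prod Y),
    InCH C (X.prod Y) p γ → ∃ σ : C.CH (Y.prod X), InCH C (Y.prod X) q σ ∧
      IsGenInverse (W.act γ) (W.act σ)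

end Base

section Extension

variable {k₀ : Type u} [Field k₀] {𝒱₀ : VarClass k₀} {C₀ : ChowTheory.{u, v} 𝒱₀}
  (W₀ : WeilTheory.{u, v, w} C₀)
  {K : Type u'} [Field K] {𝒱 : VarClass K} {C : ChowTheory.{u', v'} 𝒱}
  (W : WeilTheory.{u', v', w'} C)

/-- The variety `X` over `K`, the class `x` in `CH^i(X)` and the correspondence `δ` from `X` to `X`
(which acts on `H^j(X)` as multiplication by `j`) are spread out over a base `B` of dimension `b`
over `k₀`: there are

* a smooth projective variety `Y` over `k₀` with a morphism to `B`, whose generic fibre `Y_η` is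
  `X` or an alteration of `X` (over a finite extension of the function field of `B`); `Φ` is the
  class of the morphisms to `Y` whose composition with `Y → B` is not dominant,
* a class `y` in `CH^i(Y)` which extends `x`, and a self-correspondence `ε` of `Y` which extends `δ`
  (and which acts as the number `s` on the part of the motive of `Y_η` which does not come
  from `X`),
* the Leray filtration `L`: `L m a` consists of the classes in `H^m(Y)` whose restrictions to the
  part of `Y` over a small open subset of `B` lie in the step `a` of the Leray filtration. The last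
  step, the classes which vanish over some open subset, consists of classes which come from the
  complement, by the theory of weights. If `x` is homologically trivial, the class of `y` lies in the
  step one. -/
def SpreadsOut (X : 𝒱.Obj) (i : ℕ) (δ : C.CH (X.prod X)) (x : C.CH X) (s : ℚ) (b : ℕ) : Prop :=
  ∃ (Y : 𝒱₀.Obj) (Φ : MorClass Y) (y : C₀.CH Y) (ε : C₀.CH (Y.prod Y)),
    InCH C₀ Y i y ∧ IsSelfCorr C₀ Y ε ∧
    ExtendsMod (pushCH C₀ Φ) (C₀.act ε) (C.act δ) y x ∧
    HasLeray (W₀.cl Y) (W₀.gr Y) (pushH W₀ Φ) (W₀.act ε) s b i (HomTrivial W X i x) y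

/-- Spreading out is possible over bases of dimension at most `B`: for every variety `X` over `K`,
every degree operator `δ` of `X`, every `x` in `CH^i(X)` and every rational number `s`. -/
def CanSpread (B : ℕ∞) : Prop :=
  ∀ (X : 𝒱.Obj) (i : ℕ) (δ : C.CH (X.prod X)) (x : C.CH X) (s : ℚ), IsDegOp W X δ → InCH C X i x →
    ∃ b : ℕ, (b : ℕ∞) ≤ B ∧ SpreadsOut W₀ W X i δ x s b

/-- Every variety has a degree operator. This is equivalent to the Künneth conjecture. -/
def HasDegOps : Prop := ∀ X : 𝒱.Obj, ∃ δ : C.CH (X.prod X), IsDegOp W X δ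

variable {W}

/-- `F^ν CH^i(X) = 0` for all `X`, `i` and all `ν ≥ t(i) + B`. -/
def LengthAtMost (t : ℕ → ℕ) (B : ℕ∞) (F : Family C) : Prop :=
  ∀ (X : 𝒱.Obj) (i ν : ℕ) (x : C.CH X), (t i : ℕ∞) + B ≤ ν → InF F X i ν x → x = 0

end Extension

end Pool.Agent.H837.Spread
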