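import Pool.Agent.H837.Spread.ExtDefs

/-!
# Restriction of Bloch–Beilinson filtrations to a smaller base field
-/

open CategoryTheory CategoryTheory.Limits AlgebraicGeometry
open Pool.Agent.H914 Pool.Agent.H914.VarClass Pool.Agent.H914.VarClass.Obj Pool.Agent.R903
open Pool.Agent.T6.H15.BB

universe u v w u' v' w'

namespace Pool.Agent.H837.Spread

variable {k₀ : Type u} [Field k₀] {𝒱₀ : VarClass k₀} {C₀ : ChowTheory.{u, v} 𝒱₀}
  {W₀ : WeilTheory.{u, v, w} C₀}
  {K : Type u'} [Field K] {𝒱 : VarClass K} {C : ChowTheory.{u', v'} 𝒱}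
  {W : WeilTheory.{u', v', w'} C}

theorem BaseExtension.IsExtension.descent {E : BaseExtension C₀ C}
    (hE : E.IsExtension W₀ W) {t : ℕ → ℕ} {F : Family C} (hF : IsBBT t W F) :
    IsBBT t W₀ (fun X i k => (F (E.obj X) i k).comap (E.ch X)) where
  fil :=
    { anti := fun X i k x hx => hF.fil.anti (E.obj X) i k (E.ch X x) hx
      zero := fun X i x => (hF.fil.zero (E.obj X) i (E.ch X x)).trans ((hE.ring X).mem i x)
      one := fun X i x => (hF.fil.one (E.obj X) i (E.ch X x)).trans
        (and_congr ((hE.ring X).mem i x) ((hE.ring X).cl x))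
      top := fun X i x hx => by
        have h := hF.fil.top (E.obj X) i (E.ch X x) hx
        exact (hE.ring X).injective (h.trans (map_zero _).symm) }
  functorial :=
    { mul := fun X i j k l x y hx hy => by
        change E.ch X (x * y) ∈ F (E.obj X) (i + j) (k + l)
        rw [(hE.ring X).mul]
        exact hF.functorial.mul (E.obj X) i j k l _ _ hx hy
      pull := fun {X Y} f i k y hy => by
        change E.ch X (C₀.pull f y) ∈ F (E.obj X) i k
        rw [hE.pull f]
        exact hF.functorial.pull (E.map f) i k _ hy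
      push := fun {X Y} f i j k x hij hx => by
        change E.ch Y (C₀.push f x) ∈ F (E.obj Y) j k
        rw [hE.push f]
        exact hF.functorial.push (E.map f) i j k _ (by rw [hE.dim_eq, hE.dim_eq]; exact hij) hx }
  motivic := fun X i j k hjk γ hγ h0 x hx => by
    change E.ch X (C₀.act γ x) ∈ F (E.obj X) i (k + 1)
    rw [hE.corr_act X γ]
    exact hF.motivic (E.obj X) i j k hjk _ (hE.corr_mem X γ hγ) (hE.corr_kills X γ j h0) _ hx

end Pool.Agent.H837.Spread
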