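import Pool.Agent.H837.Spread.Defs

/-!
# Extension of the base field: definitions
-/

open CategoryTheory CategoryTheory.Limits AlgebraicGeometry
open Pool.Agent.H914 Pool.Agent.H914.VarClass Pool.Agent.H914.VarClass.Obj Pool.Agent.R903
open Pool.Agent.T6.H15.BB

universe u v w u' v' w'

namespace Pool.Agent.H837.Spread

section Alg

/-- `e' T = T' e`. -/
def Intertwines {A : Type v} [CommRing A] [Algebra ℚ A] {A' : Type v} [CommRing A'] [Algebra ℚ A']
    {B : Type v'} [CommRing B] [Algebra ℚ B] {B' : Type v'} [CommRing B'] [Algebra ℚ B']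
    (e : A →ₗ[ℚ] B) (e' : A' →ₗ[ℚ] B') (T : A →ₗ[ℚ] A') (T' : B →ₗ[ℚ] B') : Prop :=
  ∀ x, e' (T x) = T' (e x)

/-- `e' T = T' e`, for homomorphisms of algebras `T` and `T'`. -/
def IntertwinesHom {A : Type v} [CommRing A] [Algebra ℚ A] {A' : Type v} [CommRing A']
    [Algebra ℚ A'] {B : Type v'} [CommRing B] [Algebra ℚ B] {B' : Type v'} [CommRing B']
    [Algebra ℚ B'] (e : A →ₗ[ℚ] B) (e' : A' →ₗ[ℚ] B') (T : A →ₐ[ℚ] A') (T' : B →ₐ[ℚ] B') : Prop :=
  ∀ x, e' (T x) = T' (e x)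

/-- `e` is injective and multiplicative, it respects the codimension and the cycle class maps. -/
structure IsRingExtension {A : Type v} [CommRing A] [Algebra ℚ A] {B : Type v'} [CommRing B]
    [Algebra ℚ B] {H : Type w} [Ring H] {H' : Type w'} [Ring H'] (gr : ℕ → Submodule ℚ A)
    (gr' : ℕ → Submodule ℚ B) (c : A →+* H) (c' : B →+* H') (e : A →ₗ[ℚ] B) : Prop where
  injective : Function.Injective e
  mem : ∀ i x, e x ∈ gr' i ↔ x ∈ gr i
  mul : ∀ x y, e (x * y) = e x * e y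
  cl : ∀ x, c' (e x) = 0 ↔ c x = 0

end Alg

variable {k₀ : Type u} [Field k₀] {𝒱₀ : VarClass k₀} {C₀ : ChowTheory.{u, v} 𝒱₀}
  {K : Type u'} [Field K] {𝒱 : VarClass K} {C : ChowTheory.{u', v'} 𝒱}

/-- Extension of the base field from `k₀` to `K`, for the varieties of the class `𝒱₀`. -/
structure BaseExtension (C₀ : ChowTheory.{u, v} 𝒱₀) (C : ChowTheory.{u', v'} 𝒱) where
  /-- the variety `X ⊗ K` -/
  obj : 𝒱₀.Obj → 𝒱.Obj
  /-- the morphism `f ⊗ K` -/
  map : ∀ {X Y : 𝒱₀.Obj}, (X ⟶ Y) → (obj X ⟶ obj Y)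
  /-- the homomorphism `CH(X) → CH(X ⊗ K)` -/
  ch : ∀ X : 𝒱₀.Obj, C₀.CH X →ₗ[ℚ] C.CH (obj X)
  /-- the map from `CH(X × X)` to `CH((X ⊗ K) × (X ⊗ K))` -/
  corr : ∀ X : 𝒱₀.Obj, C₀.CH (X.prod X) → C.CH ((obj X).prod (obj X))

/-- The properties of the extension of the base field which are used. The field `k₀` is
algebraically closed (or `K` is algebraic over `k₀`), so that `CH(X) → CH(X ⊗ K)` is injective. -/
structure BaseExtension.IsExtension (E : BaseExtension C₀ C)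
    (W₀ : WeilTheory.{u, v, w} C₀) (W : WeilTheory.{u', v', w'} C) : Prop where
  dim_eq : ∀ X, (E.obj X).dim = X.dim
  ring : ∀ X, IsRingExtension (C₀.gr X) (C.gr (E.obj X)) (W₀.cl X) (W.cl (E.obj X)) (E.ch X)
  pull : ∀ {X Y : 𝒱₀.Obj} (f : X ⟶ Y),
    IntertwinesHom (E.ch Y) (E.ch X) (C₀.pull f) (C.pull (E.map f))
  push : ∀ {X Y : 𝒱₀.Obj} (f : X ⟶ Y),
    Intertwines (E.ch X) (E.ch Y) (C₀.push f) (C.push (E.map f))
  corr_mem : ∀ X γ, IsSelfCorr C₀ X γ → IsSelfCorr C (E.obj X) (E.corr X γ)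
  corr_act : ∀ X γ, Intertwines (E.ch X) (E.ch X) (C₀.act γ) (C.act (E.corr X γ))
  corr_kills : ∀ X γ j, Kills W₀ γ j → Kills W (E.corr X γ) j

end Pool.Agent.H837.Spread
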