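import Pool.Agent.H837.Spread.Main
import Pool.Agent.H837.Spread.Descent

/-!
# Bloch–Beilinson filtrations over an extension of the base field
-/

open CategoryTheory CategoryTheory.Limits AlgebraicGeometry Polynomial
open Pool.Agent.H914 Pool.Agent.H914.VarClass Pool.Agent.H914.VarClass.Obj Pool.Agent.R903
open Pool.Agent.T6.H15.BB

universe u v w u' v' w'

namespace Pool.Agent.H837.Spread

variable {k₀ : Type u} [Field k₀] {𝒱₀ : VarClass k₀} {C₀ : ChowTheory.{u, v} 𝒱₀}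
  {W₀ : WeilTheory.{u, v, w} C₀}
  {K : Type u'} [Field K] {𝒱 : VarClass K} {C : ChowTheory.{u', v'} 𝒱}
  {W : WeilTheory.{u', v', w'} C}

/-- The rational eigenvalues of the degree operators `δ` of `X` on `CH^i(X)` are among the numbers
`2i - r - a` with `0 ≤ r < t(i)` and `0 ≤ a ≤ B`, and `2i` is not an eigenvalue of `δ` on the
homologically trivial classes. -/
def EigenvaluesIn (W : WeilTheory.{u', v', w'} C) (t : ℕ → ℕ) (B : ℕ∞) : Prop :=
  ∀ (X : 𝒱.Obj) (i : ℕ) (δ : C.CH (X.prod X)) (x : C.CH X) (c : ℚ), IsDegOp W X δ →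
    InCH C X i x → x ≠ 0 ∧ C.act δ x = c • x →
      ∃ r a : ℕ, r < t i ∧ (a : ℕ∞) ≤ B ∧ c = 2 * i - r - a ∧ (HomTrivial W X i x → 1 ≤ r + a)

theorem eigenBound {t₀ : ℕ → ℕ} (ht : ∀ i, t₀ i ≤ 2 * i + 1) {F : Family C₀}
    (hF : IsBBT t₀ W₀ F) (hR : RegularMotives W₀) {B : ℕ∞}
    (hS : CanSpread W₀ W B) : EigenvaluesIn W t₀ B := by
  rintro X i δ x c hδ hx ⟨hx0, hc⟩
  by_contra hno
  push Not at hno
  apply hx0
  obtain ⟨b, hb, hS⟩ := hS X i δ x (c + 1) hδ hx
  refine eigen ht hF hR hS hc (by norm_num) fun r a hr ha h h' => ?_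
  obtain ⟨h1, h2⟩ := hno r a hr (le_trans (by exact_mod_cast ha) hb) h'
  have := h h1
  omega

lemma EigenvaluesIn.middle {t₀ : ℕ → ℕ} {B : ℕ∞} (hE : EigenvaluesIn W t₀ B) : MiddleWeight W := by
  intro X δ hδ m hm x hx hc
  by_contra hx0
  obtain ⟨r, a, -, -, h1, h2⟩ := hE X m δ x X.dim hδ hx.1 ⟨hx0, hc⟩
  have h3 := h2 hx
  have h4 : ((X.dim + r + a : ℕ) : ℚ) = ((2 * m : ℕ) : ℚ) := by
    push_cast
    rw [h1]
    ring
  rw [Nat.cast_inj] at h4
  omega

/-- The length of the filtration. -/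
lemma EigenvaluesIn.length {t₀ : ℕ → ℕ} {B : ℕ∞} (hE : EigenvaluesIn W t₀ B) {t' : ℕ → ℕ}
    (ht' : ∀ i, t' i ≤ 2 * i + 1) {F : Family C} (hF : IsBBT t' W F) {X : 𝒱.Obj}
    {δ : C.CH (X.prod X)} (hδ : IsDegOp W X δ) (i : ℕ) :
    ∀ n ν, t' i ≤ ν + n → (t₀ i : ℕ∞) + B ≤ ν → ∀ x, InF F X i ν x → x = 0 := by
  have hanti : ∀ a b, a ≤ b → ∀ x, InF F X i b x → InF F X i a x := by
    intro a b hab
    induction b, hab using Nat.le_induction with
    | base => intro x hx; exact hx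
    | succ b _ ih => intro x hx; exact ih x (hF.fil.anti X i b x hx)
  intro n
  induction n with
  | zero => intro ν h1 _ x hx; exact hF.fil.top X i x (hanti _ _ h1 x hx)
  | succ n ih =>
    intro ν h1 h2 x hx
    by_cases hν : t' i ≤ ν
    · exact hF.fil.top X i x (hanti _ _ hν x hx)
    · have hti := ht' i
      have hj : 2 * i - ν + ν = 2 * i := by omega
      by_contra hx0
      have hmem : δ - ((2 * i - ν : ℕ) : ℚ) • C.diagC X ∈ C.gr (X.prod X) X.dim :=
        Submodule.sub_mem _ hδ.1 (Submodule.smul_mem _ _ (C.diagC_mem X))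
      have h3 := hF.motivic X i (2 * i - ν) ν hj (δ - ((2 * i - ν : ℕ) : ℚ) • C.diagC X) hmem
        (by
          intro v hv
          rw [W.act_sub, W.act_smul, LinearMap.sub_apply, LinearMap.smul_apply, W.act_diagC,
            hδ.2 _ v hv]
          push_cast
          rw [sub_self]) x hx
      have h4 := ih (ν + 1) (by omega) (h2.trans (by exact_mod_cast Nat.le_succ ν)) _ h3
      have h5 : corrAct C δ x = ((2 * i - ν : ℕ) : ℚ) • x := by
        have h6 : C.act (δ - ((2 * i - ν : ℕ) : ℚ) • C.diagC X) x = 0 := h4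
        rw [C.act_sub, C.act_smul, LinearMap.sub_apply, LinearMap.smul_apply, C.act_diagC,
          sub_eq_zero] at h6
        exact h6
      obtain ⟨r, a, hr, ha, h7, -⟩ := hE X i δ x _ hδ ((hF.fil.zero X i x).1 (hanti 0 ν
        (Nat.zero_le _) x hx)) ⟨hx0, h5⟩
      have h8 : ((2 * i - ν + r + a : ℕ) : ℚ) = ((2 * i : ℕ) : ℚ) := by
        push_cast
        rw [h7]
        ring
      rw [Nat.cast_inj] at h8
      have h9 : ν = r + a := by omega
      rw [h9] at h2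
      have h10 : (t₀ i : ℕ∞) + a ≤ (t₀ i : ℕ∞) + B := by gcongr
      have h11 := h10.trans h2
      have h12 : t₀ i + a ≤ r + a := by exact_mod_cast h11
      omega

lemma kunneth_of_degOps (h : HasDegOps W) : W.Kunneth := by
  intro X j
  obtain ⟨δ, hδ⟩ := h X
  have hδ' : W.IsDegree X δ := hδ
  refine ⟨polyC C δ (lag (Finset.range (2 * X.dim + 1)) j), polyC_mem hδ'.1 _, ?_⟩
  intro l a ha
  rw [actH_polyC hδ' _ ha]
  by_cases hl : l ∈ Finset.range (2 * X.dim + 1)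
  · rw [eval_lag hl]
    split_ifs <;> simp
  · rw [Finset.mem_range, not_lt] at hl
    rw [W.gr_eq_bot X l (by omega), Submodule.mem_bot] at ha
    rw [ha]
    simp

theorem main {t₀ : ℕ → ℕ} (ht : ∀ i, t₀ i ≤ 2 * i + 1)
    (hF : ∃ F : Family C₀, IsBBT t₀ W₀ F) (hR : RegularMotives W₀) {B : ℕ∞}
    (hS : CanSpread W₀ W B) (hC : HasCurve C) :
    EigenvaluesIn W t₀ B ∧
    (HasDegOps W → ∃ F : Family C, IsBBT (fun i => 2 * i + 1) W F ∧ LengthAtMost t₀ B F) ∧
    ((∀ X, LefschetzStd W X) →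
      ∃ F : Family C, IsBBT (fun i => i + 1) W F ∧ LengthAtMost t₀ B F) := by
  obtain ⟨F, hF⟩ := hF
  have hE := eigenBound ht hF hR hS
  refine ⟨hE, fun hK => ?_, fun hL => ?_⟩
  · have h1 : (W.Kunneth ∧ MiddleWeight W) ↔
        (W.Kunneth ∧ ∃ F : Family C, IsBBT (fun i => 2 * i + 1) W F) :=
      (middle_main (W := W) hC).1.out 1 0
    obtain ⟨-, F', hF'⟩ := h1.1 ⟨kunneth_of_degOps hK, hE.middle⟩
    refine ⟨F', hF', fun X i ν x h3 h4 => ?_⟩
    obtain ⟨δ, hδ⟩ := hK X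
    exact hE.length (fun i => le_rfl) hF' hδ i (2 * i + 1) ν (by omega) h3 x h4
  · have h := (middle_main (W := W) hC).2 hL
    have h1 : MiddleWeight W ↔ ∃ F : Family C, IsBBT (fun i => i + 1) W F := h.out 1 0
    have h2 : MiddleWeight W ↔ MiddleCK W := h.out 1 3
    obtain ⟨F', hF'⟩ := h1.1 hE.middle
    refine ⟨F', hF', fun X i ν x h3 h4 => ?_⟩
    obtain ⟨⟨π, hπ⟩, -⟩ := h2.1 hE.middle X
    exact hE.length (fun i => by omega) hF' (isDegree_degCK hπ) i (i + 1) ν (by omega) h3 x h4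

end Pool.Agent.H837.Spread
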