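import Pool.Graph.R_pool_sql_team_seeded_47a924f7.T6.H15.BB.Middle
import Pool.Agent.H837.Spread.Proj

/-!
# Eigenvalues of degree operators over an extension of the base field
-/

open CategoryTheory CategoryTheory.Limits AlgebraicGeometry Polynomial
open Pool.Agent.H914 Pool.Agent.H914.VarClass Pool.Agent.H914.VarClass.Obj Pool.Agent.R903
open Pool.Agent.T6.H15.BB

universe u v w u' v' w' t

namespace Pool.Agent.H837.Spread

lemma aeval_comm {M : Type*} {N : Type*} [AddCommGroup M] [Module ℚ M] [AddCommGroup N]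
    [Module ℚ N] (f : M →ₗ[ℚ] N) (A : M →ₗ[ℚ] M) (B : N →ₗ[ℚ] N) (h : ∀ z, f (A z) = B (f z))
    (p : ℚ[X]) (z : M) : f (aeval A p z) = aeval B p (f z) := by
  induction p using Polynomial.induction_on' with
  | add p q hp hq => rw [map_add, map_add, LinearMap.add_apply, LinearMap.add_apply, map_add, hp, hq]
  | monomial n a =>
    rw [aeval_monomial, aeval_monomial, Module.End.mul_apply, Module.End.mul_apply,
      Module.algebraMap_end_apply, Module.algebraMap_end_apply, map_smul]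
    congr 1
    induction n with
    | zero => simp
    | succ n ih => rw [pow_succ', pow_succ', Module.End.mul_apply, Module.End.mul_apply, h, ih]

section Base

variable {k : Type u} [Field k] {𝒱 : VarClass k} {C : ChowTheory.{u, v} 𝒱}
  {W : WeilTheory.{u, v, w} C}

lemma actH_X_sub_C {X : 𝒱.Obj} (d : C.CH (X.prod X)) (c : ℚ) (v : W.H X) :
    W.act (polyC C d (Polynomial.X - Polynomial.C c)) v = W.act d v - (c : W.K) • v := by
  rw [polyC_sub, polyC_X, polyC_C, W.act_sub, W.act_smul, LinearMap.sub_apply,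
    LinearMap.smul_apply, W.act_diagC]

/-- the polynomial with the roots `c - l`, `a ≤ l ≤ b`, and `s` -/
noncomputable def rootPoly (c s : ℚ) (a b : ℕ) : ℚ[X] :=
  ∏ l ∈ Finset.Ico a (b + 1), ((Polynomial.X - Polynomial.C (c - l)) *
    (Polynomial.X - Polynomial.C s))

lemma eval_rootPoly_ne_zero {c s x : ℚ} {a b : ℕ} (hs : x ≠ s)
    (h : ∀ l, a ≤ l → l ≤ b → x ≠ c - l) : (rootPoly c s a b).eval x ≠ 0 := by
  rw [rootPoly, eval_prod, Finset.prod_ne_zero_iff]
  intro l hl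
  rw [Finset.mem_Ico] at hl
  rw [eval_mul, eval_sub, eval_sub, eval_X, eval_C, eval_C]
  exact mul_ne_zero (sub_ne_zero.2 (h l hl.1 (by omega))) (sub_ne_zero.2 hs)

/-- A polynomial in `ε` moves down the steps of a filtration. -/
lemma rootPoly_mem {Y : 𝒱.Obj} {ε : C.CH (Y.prod Y)} (hε : ε ∈ C.gr (Y.prod Y) Y.dim) {m : ℕ}
    {s : ℚ} {b : ℕ} {L : ℕ → Submodule W.K (W.H Y)}
    (hL : ∀ a, a ≤ b → ∀ v ∈ L a, W.act ε (W.act ε v - ((m : W.K) - a) • v) -
      (s : W.K) • (W.act ε v - ((m : W.K) - a) • v) ∈ L (a + 1))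
    (n : ℕ) : ∀ a, a + n = b + 1 → ∀ v ∈ L a,
      W.act (polyC C ε (rootPoly m s a b)) v ∈ L (b + 1) := by
  induction n with
  | zero =>
    intro a ha v hv
    rw [rootPoly, Finset.Ico_eq_empty (by omega), Finset.prod_empty, polyC_one, W.act_diagC]
    rw [add_zero] at ha
    rw [← ha]
    exact hv
  | succ n ih =>
    intro a ha v hv
    have h1 := ih (a + 1) (by omega) _ (hL a (by omega) v hv)
    rw [rootPoly, Finset.prod_eq_prod_Ico_succ_bot (by omega), polyC_mul',
      W.act_comp _ (polyC_mem hε _), polyC_mul', W.act_comp _ (polyC_mem hε _),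
      actH_X_sub_C, actH_X_sub_C]
    rw [rootPoly] at h1
    push_cast
    exact h1

/-- A polynomial in `ε` which maps the relevant cohomology to the part which comes from the
boundary maps `F^r` to `F^(r+1)`, up to cycles which vanish on the generic fibre. -/
lemma step {t : ℕ → ℕ} {F : Family C} (hF : IsBBT t W F) {Y : 𝒱.Obj} (Φ : MorClass Y)
    {M : Type*} [AddCommGroup M] [Module ℚ M]
    (res : C.CH Y →ₗ[ℚ] M) (h : ∀ z ∈ pushCH C Φ, res z = 0) (hR : RegularMotives W)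
    {i j r : ℕ} (hj : j + r = 2 * i) {γ : C.CH (Y.prod Y)} (hγ : γ ∈ C.gr (Y.prod Y) Y.dim)
    (h0 : ∀ v ∈ W.gr Y j, W.act γ v ∈ pushH W Φ) {z : C.CH Y} (hz : InF F Y i r z) :
    ∃ z', InF F Y i (r + 1) z' ∧ res (C.act γ z) = res z' := by
  obtain ⟨p, hp, h1, h2⟩ := exists_projector' hR Φ
  have hp' : C.diagC Y - p ∈ C.gr (Y.prod Y) Y.dim := Submodule.sub_mem _ (C.diagC_mem Y) hp
  refine ⟨C.act (C.comp γ (C.diagC Y - p)) z, ?_, ?_⟩
  · refine hF.motivic Y i j r hj _ (C.comp_mem hγ hp' rfl) ?_ z hz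
    intro v hv
    rw [W.act_comp _ hp', W.act_sub, LinearMap.sub_apply, W.act_diagC, h1 _ (h0 v hv), sub_self]
  · rw [C.act_comp, C.act_sub, LinearMap.sub_apply, C.act_diagC, map_sub, h _ (h2 _), sub_zero]

/-- The same for the first step, if the class of the cycle lies in a smaller space. -/
lemma step_one {t : ℕ → ℕ} {F : Family C} (hF : IsBBT t W F) {Y : 𝒱.Obj} (Φ : MorClass Y)
    {M : Type*} [AddCommGroup M] [Module ℚ M]
    (res : C.CH Y →ₗ[ℚ] M) (h : ∀ z ∈ pushCH C Φ, res z = 0) (hR : RegularMotives W)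
    {i : ℕ} {γ : C.CH (Y.prod Y)} (hγ : γ ∈ C.gr (Y.prod Y) Y.dim)
    {z : C.CH Y} (hz : z ∈ C.gr Y i) (h0 : W.act γ (W.cl Y z) ∈ pushH W Φ) :
    ∃ z', InF F Y i 1 z' ∧ res (C.act γ z) = res z' := by
  obtain ⟨p, hp, h1, h2⟩ := exists_projector' hR Φ
  have hp' : C.diagC Y - p ∈ C.gr (Y.prod Y) Y.dim := Submodule.sub_mem _ (C.diagC_mem Y) hp
  refine ⟨C.act (C.comp γ (C.diagC Y - p)) z, ?_, ?_⟩
  · refine (hF.fil.one Y i _).2 ⟨C.act_mem (C.comp_mem hγ hp' rfl) hz rfl, ?_⟩
    change W.cl Y _ = 0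
    rw [W.cl_act, W.act_comp _ hp', W.act_sub, LinearMap.sub_apply, W.act_diagC, h1 _ h0,
      sub_self]
  · rw [C.act_comp, C.act_sub, LinearMap.sub_apply, C.act_diagC, map_sub, h _ (h2 _), sub_zero]

end Base

section Extension

variable {k₀ : Type u} [Field k₀] {𝒱₀ : VarClass k₀} {C₀ : ChowTheory.{u, v} 𝒱₀}
  {W₀ : WeilTheory.{u, v, w} C₀}
  {K : Type u'} [Field K] {𝒱 : VarClass K} {C : ChowTheory.{u', v'} 𝒱}
  {W : WeilTheory.{u', v', w'} C}

/-- The eigenvalues of a degree operator `δ` of `X` on `CH^i(X)` are among the numbers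
`2i - r - a` with `r < t(i)` and `a ≤ b`. -/
theorem eigen {t₀ : ℕ → ℕ} (ht : ∀ i, t₀ i ≤ 2 * i + 1) {F : Family C₀} (hF : IsBBT t₀ W₀ F)
    (hR : RegularMotives W₀) {X : 𝒱.Obj} {i : ℕ} {δ : C.CH (X.prod X)} {x : C.CH X} {s : ℚ}
    {b : ℕ} (hS : SpreadsOut W₀ W X i δ x s b) {c : ℚ} (hc : C.act δ x = c • x) (hs : c ≠ s)
    (h : ∀ r a : ℕ, r < t₀ i → a ≤ b → (HomTrivial W X i x → r + a ≠ 0) →
      c ≠ 2 * i - r - a) : x = 0 := by
  classical
  obtain ⟨Y, Φ, y, ε, hy, hε, ⟨M, _, _, res, emb, ⟨hinj, hxy, op, hres, hemb⟩, hN⟩,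
    L, hL, hcl⟩ := hS
  have hε' : ε ∈ C₀.gr (Y.prod Y) Y.dim := hε
  have hy' : y ∈ C₀.gr Y i := hy
  have key : ∀ r, 1 ≤ r → r ≤ t₀ i → ∃ (R : ℚ[X]) (z : C₀.CH Y), R.eval c ≠ 0 ∧
      InF F Y i r z ∧ res (C₀.act (polyC C₀ ε R) y) = res z := by
    intro r hr
    induction r, hr using Nat.le_induction with
    | base =>
      intro hr
      by_cases h0 : HomTrivial W X i x
      · obtain ⟨z', h1, h2⟩ := step_one hF Φ res hN hR
          (polyC_mem hε' (rootPoly ((2 * i : ℕ) : ℚ) s 1 b)) hy'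
          (hL.top _ (rootPoly_mem hε' (hL.step (2 * i)) b 1 (by omega) _ (hcl h0)))
        refine ⟨_, z', ?_, h1, h2⟩
        refine eval_rootPoly_ne_zero hs fun l hl hl' => ?_
        have := h 0 l (by omega) hl' (fun _ => by omega)
        push_cast
        push_cast at this
        rwa [sub_zero] at this
      · obtain ⟨z', h1, h2⟩ := step hF Φ res hN hR (i := i) (j := 2 * i) (r := 0)
          rfl (polyC_mem hε' (rootPoly ((2 * i : ℕ) : ℚ) s 0 b))
          (fun v hv => hL.top _ (rootPoly_mem hε' (hL.step (2 * i)) (b + 1) 0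
            (by omega) _ (hL.zero _ hv))) (z := y) ((hF.fil.zero _ _ _).2 hy)
        refine ⟨_, z', ?_, h1, h2⟩
        refine eval_rootPoly_ne_zero hs fun l hl hl' => ?_
        have := h 0 l (by omega) hl' (fun h' => absurd h' h0)
        push_cast
        push_cast at this
        rwa [sub_zero] at this
    | succ r hr ih =>
      intro hr'
      obtain ⟨R, z, h1, h2, h3⟩ := ih (by omega)
      have hti := ht i
      obtain ⟨z', h4, h5⟩ := step hF Φ res hN hR (i := i) (j := 2 * i - r) (r := r)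
          (by omega) (polyC_mem hε' (rootPoly ((2 * i - r : ℕ) : ℚ) s 0 b))
          (fun v hv => hL.top _ (rootPoly_mem hε' (hL.step (2 * i - r)) (b + 1) 0
            (by omega) _ (hL.zero _ hv))) h2
      refine ⟨R * rootPoly ((2 * i - r : ℕ) : ℚ) s 0 b, z', ?_, h4, ?_⟩
      · rw [eval_mul]
        refine mul_ne_zero h1 ?_
        refine eval_rootPoly_ne_zero hs fun l hl hl' => ?_
        have := h r l (by omega) hl' (fun _ => by omega)
        rw [Nat.cast_sub (by omega)]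
        push_cast
        exact this
      · rw [polyC_mul', C₀.act_comp, act_polyC, aeval_comm res _ op hres, h3,
          ← aeval_comm res (C₀.act ε) op hres, ← act_polyC, h5]
  apply hinj
  rw [map_zero]
  by_cases ht0 : t₀ i = 0
  · have h1 := hF.fil.top Y i y (by rw [ht0]; exact (hF.fil.zero _ _ _).2 hy)
    rw [← hxy, h1, map_zero]
  · obtain ⟨R, z, h1, h2, h3⟩ := key (t₀ i) (by omega) le_rfl
    rw [hF.fil.top _ _ z h2, map_zero, act_polyC, aeval_comm res _ op hres, hxy,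
      ← aeval_comm emb (C.act δ) op hemb, ← act_polyC, act_polyC_eigen hc,
      map_smul] at h3
    exact (smul_eq_zero.1 h3).resolve_left h1

end Extension

end Pool.Agent.H837.Spread
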